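import Pool.Agent.Y690.JP.Stm2
import Pool.Agent.W612.RS.Mq1
import Pool.Agent.W410.RS.MQ2
import Pool.Agent.TH942.FG

/-!
MF-FIN: finiteness of `E(F)` (adapted from `Y697/MQ/KR.lean` of helper697).
-/

set_option autoImplicit false

open WeierstrassCurve NumberField

namespace Pool.Agent.Y37.JP

open Pool.Agent.W307.RS (ShK)
open Pool.Agent.W612.RS (mq1)
open Pool.Agent.W410.RS (rk rk_eq gen)
open Pool.Agent.Y690.PP (G)
open Pool.Agent.Y690.JP.MF

theorem finite_of_rank {A : Type} [AddCommGroup A] (hA : AddGroup.FG A)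
    (h : Module.rank ℤ A = 0) : Finite A := by
  have hfin : Module.Finite ℤ A := Module.Finite.iff_addGroup_fg.2 hA
  apply Module.finite_of_fg_torsion
  intro P
  obtain ⟨a, ha, hP⟩ := rank_eq_zero_iff.1 h P
  exact ⟨⟨a, mem_nonZeroDivisors_of_ne_zero ha⟩, hP⟩

theorem iota_inj {F : Type} [Field F] [NumberField F] (ι : GaussianInt →+* 𝓞 F) :
    Function.Injective ι := by
  rw [injective_iff_map_eq_zero]
  intro a ha
  by_contra h0
  have h3 : ι ((a.norm : ℤ) : GaussianInt) = 0 := by
    rw [Zsqrtd.norm_eq_mul_conj, map_mul, ha, zero_mul]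
  rw [map_intCast] at h3
  have h4 : a.norm = 0 := by exact_mod_cast h3
  exact h0 (GaussianInt.norm_eq_zero.1 h4)

/-- the rank over the ground field -/
theorem rank_k {k : Type} [Field k] {δ : k} (hδ : δ ≠ 0)
    (hg : ∀ x y : k, δ * y ^ 2 = x ^ 3 - x → y = 0) : rk (-(δ ^ 2)) (0 : k) = 0 := by
  classical
  rw [rk_eq]
  refine rank_eq_zero_iff.2 fun P => ⟨2, two_ne_zero, ?_⟩
  match P with
  | 0 => simp
  | .some X Y h =>
    have he : Y ^ 2 = X ^ 3 - δ ^ 2 * X := by
      have h1 := (Affine.equation_iff (W := (ShK (-(δ ^ 2)) (0 : k)).toAffine) X Y).1 h.1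
      simp only [ShK, zero_mul, add_zero] at h1
      linear_combination h1
    have hY : Y = 0 := by
      have h1 := hg (X / δ) (Y / δ ^ 2) (by
        field_simp
        linear_combination he)
      rcases div_eq_zero_iff.1 h1 with h2 | h2
      · exact h2
      · exact absurd h2 (pow_ne_zero 2 hδ)
    subst hY
    have h3 : (Affine.Point.some X 0 h) = -(Affine.Point.some X 0 h) := by
      rw [Affine.Point.neg_some]
      simp [Affine.negY, ShK]
    rw [two_smul]
    nth_rewrite 1 [h3]
    exact neg_add_cancel _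

theorem finite_aux {F : Type} [Field F] [NumberField F] {k : Type} [Field k]
    [Algebra GaussianInt k] [IsFractionRing GaussianInt k] [Algebra k F]
    (ι : GaussianInt →+* 𝓞 F)
    (hc : ∀ g : GaussianInt, algebraMap k F (algebraMap GaussianInt k g) = (ι g : F))
    (s : Finset GaussianInt) (D : GaussianInt) (hD0 : D ≠ 0) (hs : ∀ d ∈ s, d ≠ 0)
    (h : Generated ι s)
    (hgood : ∀ J ⊆ s, ∀ x y : k,
      algebraMap GaussianInt k (D * ∏ d ∈ J, d) * y ^ 2 = x ^ 3 - x → y = 0) :
    Finite (ShK (-(((ι D : 𝓞 F) : F) ^ 2)) (0 : F)).toAffine.Point := by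
  classical
  obtain ⟨r, hr, hgen⟩ := h
  have hchar : CharZero k := charZero_of_injective_algebraMap (IsFractionRing.injective GaussianInt k)
  have hinj := IsFractionRing.injective GaussianInt k
  have hk0 : ∀ g : GaussianInt, g ≠ 0 → algebraMap GaussianInt k g ≠ 0 :=
    fun g hg h => hg (hinj (by rw [h, map_zero]))
  have hι0 : ((ι D : 𝓞 F) : F) ≠ 0 := by
    rw [← hc]
    exact (map_ne_zero _).2 (hk0 D hD0)
  have htop : IntermediateField.adjoin k
      ((fun d : GaussianInt => ((r d : 𝓞 F) : F)) '' (s : Set GaussianInt)) = ⊤ := by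
    rw [eq_top_iff]
    intro x _
    have h1 := hgen (IntermediateField.adjoin k
      ((fun d : GaussianInt => ((r d : 𝓞 F) : F)) '' (s : Set GaussianInt))).toSubfield (by
        intro g
        rw [← hc g]
        exact (IntermediateField.adjoin k _).algebraMap_mem _) (by
        intro d hd
        exact IntermediateField.subset_adjoin k _ ⟨d, hd, rfl⟩)
    have h2 : x ∈ (IntermediateField.adjoin k
      ((fun d : GaussianInt => ((r d : 𝓞 F) : F)) '' (s : Set GaussianInt))).toSubfield := by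
      rw [h1]; trivial
    exact h2
  have hne4 : 4 * (-((algebraMap GaussianInt k D) ^ 2)) ^ 3 + 27 * (0 : k) ^ 2 ≠ 0 := by
    have : 4 * (-((algebraMap GaussianInt k D) ^ 2)) ^ 3 + 27 * (0 : k) ^ 2 =
        -(4 * (algebraMap GaussianInt k D) ^ 6) := by
      ring
    rw [this]
    exact neg_ne_zero.2 (mul_ne_zero (OfNat.ofNat_ne_zero 4) (pow_ne_zero 6 (hk0 D hD0)))
  have h1 := gen mq1 s k F (fun d => ((r d : 𝓞 F) : F)) (fun d => algebraMap GaussianInt k d)
    (fun d hd => by
      rw [hc, ← hr d hd]; push_cast; rfl) (fun d hd => hk0 d (hs d hd)) htop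
    (-((algebraMap GaussianInt k D) ^ 2)) 0 hne4
  have h2 : ∀ J ∈ s.powerset,
      rk ((∏ d ∈ J, algebraMap GaussianInt k d) ^ 2 * (-((algebraMap GaussianInt k D) ^ 2)))
        ((∏ d ∈ J, algebraMap GaussianInt k d) ^ 3 * 0) = 0 := by
    intro J hJ
    have hJs := Finset.mem_powerset.1 hJ
    have e : (∏ d ∈ J, algebraMap GaussianInt k d) ^ 2 * (-((algebraMap GaussianInt k D) ^ 2)) =
        -((algebraMap GaussianInt k (D * ∏ d ∈ J, d)) ^ 2) := by
      rw [map_mul, map_prod]
      ring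
    rw [mul_zero, e]
    apply rank_k
    · exact hk0 _ (mul_ne_zero hD0 (Finset.prod_ne_zero_iff.2 fun d hd => hs d (hJs hd)))
    · exact hgood J hJs
  rw [Finset.sum_eq_zero h2, map_zero, map_neg, map_pow, hc] at h1
  have h3 : rk (-(((ι D : 𝓞 F) : F) ^ 2)) 0 = 0 := le_antisymm h1 zero_le
  rw [rk_eq] at h3
  apply finite_of_rank ?_ h3
  exact Pool.Agent.TH942.sfg (by
      have : 4 * (-(((ι D : 𝓞 F) : F) ^ 2)) ^ 3 + 27 * (0 : F) ^ 2 =
        -(4 * ((ι D : 𝓞 F) : F) ^ 6) := by ring
      rw [this]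
      exact neg_ne_zero.2 (mul_ne_zero (OfNat.ofNat_ne_zero 4) (pow_ne_zero 6 hι0)))

theorem t_FIN : SFIN := by
  intro F _ _ ι s D hD hs hgen hgood
  have hinj : Function.Injective ((algebraMap (𝓞 F) F).comp ι) := by
    intro a b hab
    apply iota_inj ι
    exact RingOfIntegers.ext hab
  let _ : Algebra (FractionRing GaussianInt) F :=
    (IsFractionRing.lift (K := FractionRing GaussianInt) hinj).toAlgebra
  exact finite_aux (k := FractionRing GaussianInt) ι
    (fun g => IsFractionRing.lift_algebraMap hinj g) s D hD hs hgen hgood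

end Pool.Agent.Y37.JP
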